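import Pool.Agent.Helper70.MB.Goals

/-!
Packet MB-STEPA.
-/

open MeasureTheory Set Metric
open scoped ENNReal FourierTransform Topology ContDiff
open Pool.Agent.Results.MP_91ee6f_gt
open Pool.Agent.Helper70.MB

namespace Pool.Agent.Helper99.MB

lemma cut_mul_cut {n : ℕ} (x₀ : En n) {ρ : ℝ} (hρ : 0 < ρ) (g : En n → ℝ) (x : En n) :
    cut x₀ (ρ / 4) x * (cut x₀ ρ x * g x) = cut x₀ (ρ / 4) x * g x := by
  by_cases h : ρ / 2 ≤ ‖x - x₀‖
  · rw [cut_zero (by positivity : (0 : ℝ) < ρ / 4) (by linarith)]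
    simp
  · rw [not_le] at h
    rw [cut_one (x₀ := x₀) hρ (x := x) (by linarith)]
    simp

lemma tl_nonneg {n : ℕ} (τ : Measure (En n)) (x₀ : En n) (ρ : ℝ) (y : En n) :
    0 ≤ tl τ x₀ ρ y :=
  integral_nonneg fun x => mul_nonneg (kap_nonneg _)
    (mul_nonneg (sub_nonneg.2 (cut_le_one _ _ _)) (abs_nonneg _))

lemma tl_le {n : ℕ} {C₁ C₂ : ℝ} (τ : Measure (En n)) (hC₁ : 0 ≤ C₁)
    (hg : ∀ x, |gg τ x| ≤ C₁)
    (h1 : ∀ R : ℝ, 0 < R → IntegrableOn (kap : En n → ℝ) {z | R ≤ ‖z‖})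
    (h2 : ∀ R : ℝ, 1 / 2 ≤ R → ∫ z in {z : En n | R ≤ ‖z‖}, kap z ≤ C₂ * Real.exp (-(R / 4)))
    (hC₂ : 0 ≤ C₂)
    (x₀ : En n) {ρ : ℝ} (hρ : 1 ≤ ρ) {y : En n} (hy : ‖y - x₀‖ ≤ ρ / 2) :
    tl τ x₀ ρ y ≤ C₁ * C₂ := by
  have hms : MeasurableSet {z : En n | ρ / 2 ≤ ‖z‖} :=
    measurableSet_le measurable_const measurable_norm
  have hint : Integrable (fun z : En n => ({z : En n | ρ / 2 ≤ ‖z‖}).indicator kap z) :=
    (integrable_indicator_iff hms).2 (h1 (ρ / 2) (by linarith))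
  have hint2 : Integrable
      (fun x : En n => C₁ * ({z : En n | ρ / 2 ≤ ‖z‖}).indicator kap (x - y)) :=
    (hint.comp_sub_right y).const_mul C₁
  have hstep : tl τ x₀ ρ y ≤
      ∫ x, C₁ * ({z : En n | ρ / 2 ≤ ‖z‖}).indicator kap (x - y) := by
    unfold tl
    refine integral_mono_of_nonneg ?_ hint2 ?_
    · exact Filter.Eventually.of_forall fun x => mul_nonneg (kap_nonneg _)
        (mul_nonneg (sub_nonneg.2 (cut_le_one _ _ _)) (abs_nonneg _))
    · refine Filter.Eventually.of_forall fun x => ?_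
      by_cases hx : ‖x - x₀‖ ≤ ρ
      · simp only [cut_one (x₀ := x₀) (by linarith : 0 < ρ) hx, sub_self, zero_mul, mul_zero]
        exact mul_nonneg hC₁ (Set.indicator_nonneg (fun z _ => kap_nonneg z) _)
      · rw [not_le] at hx
        have hxy : ρ / 2 ≤ ‖x - y‖ := by
          have h3 : ‖x - x₀‖ ≤ ‖x - y‖ + ‖y - x₀‖ := by
            have := norm_add_le (x - y) (y - x₀)
            simpa using this
          linarith
        have hmem : x - y ∈ {z : En n | ρ / 2 ≤ ‖z‖} := hxy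
        simp only [Set.indicator_of_mem hmem]
        calc kap (x - y) * ((1 - cut x₀ ρ x) * |gg τ x|)
            ≤ kap (x - y) * (1 * C₁) := by
              refine mul_le_mul_of_nonneg_left ?_ (kap_nonneg _)
              refine mul_le_mul ?_ (hg x) (abs_nonneg _) zero_le_one
              linarith [cut_nonneg x₀ ρ x]
          _ = C₁ * kap (x - y) := by ring
  refine hstep.trans ?_
  rw [integral_const_mul]
  refine mul_le_mul_of_nonneg_left ?_ hC₁
  rw [integral_sub_right_eq_self (fun z : En n => ({z : En n | ρ / 2 ≤ ‖z‖}).indicator kap z) y,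
    integral_indicator hms]
  refine (h2 (ρ / 2) (by linarith)).trans ?_
  have : Real.exp (-(ρ / 2 / 4)) ≤ 1 := Real.exp_le_one_iff.2 (by linarith)
  nlinarith

/-- packet STEPA -/
theorem stepA : SCAL → KEYF → BDD → KAPI → FK → STEPA := by
  intro hS hK hB hA hF n hn
  obtain ⟨CS, hCS, hS⟩ := hS n hn
  obtain ⟨CE, hCE, hK⟩ := hK n hn
  obtain ⟨CB, hCB, hB⟩ := hB n hn
  obtain ⟨hA1, CA, hCA, hA2⟩ := hA n hn
  obtain ⟨-, hCK, -⟩ := hF n hn
  set vn : ℝ := (volume : Measure (En n)).real (closedBall (0 : En n) 1) with hvn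
  have hvn0 : 0 ≤ vn := measureReal_nonneg
  set D : ℝ := CK n * (CB * (CB * 2 ^ n)) + CB * vn + CE * (CB * CA * (CB * vn)) with hD
  have hD0 : 0 ≤ D := by positivity
  refine ⟨2 * D + CS * (16 * 4 ^ (2 * n)), by positivity, ?_⟩
  intro X τ hτ x₀ ρ hρ
  haveI := hτ.fin
  have hρ0 : 0 < ρ := by linarith
  have hρ4 : 0 < ρ / 4 := by linarith
  obtain ⟨hgb, hτb⟩ := hB X τ hτ
  obtain ⟨hu, hKEY⟩ := hK τ inferInstance x₀ ρ hρ0
  set u : En n → ℝ := fun x => cut x₀ ρ x * gg τ x with hudef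
  obtain ⟨hS1, -, -⟩ := hS x₀ (ρ / 4) hρ4
  obtain ⟨hχu, -, hmain⟩ := hS1 u hu
  obtain ⟨hh, -, -⟩ := hS1 _ hχu
  set h : En n → ℝ := fun x => cut x₀ (ρ / 4) x * (cut x₀ (ρ / 4) x * u x) with hhdef
  have heq : (fun x => cut x₀ (ρ / 4) x * u x) = fun x => cut x₀ (ρ / 4) x * gg τ x := by
    funext x
    exact cut_mul_cut x₀ hρ0 (gg τ) x
  rw [heq] at hmain
  -- support of h
  have hsupp : ∀ y, h y ≠ 0 → ‖y - x₀‖ ≤ ρ / 2 := by
    intro y hy
    by_contra hc
    rw [not_le] at hc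
    apply hy
    simp only [hhdef]
    rw [cut_zero hρ4 (by linarith)]
    simp
  have habs : ∀ y, |h y| ≤ (closedBall x₀ (ρ / 2)).indicator (fun _ => CB) y := by
    intro y
    by_cases hy : y ∈ closedBall x₀ (ρ / 2)
    · rw [Set.indicator_of_mem hy]
      have h1 : h y = cut x₀ (ρ / 4) y * (cut x₀ (ρ / 4) y * gg τ y) := by
        simp only [hhdef, hudef]
        rw [cut_mul_cut x₀ hρ0 (gg τ) y]
      rw [h1, abs_mul, abs_mul, abs_of_nonneg (cut_nonneg _ _ _)]
      have a1 := cut_nonneg x₀ (ρ / 4) y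
      have a2 := cut_le_one x₀ (ρ / 4) y
      have a3 := hgb y
      have a4 := abs_nonneg (gg τ y)
      calc cut x₀ (ρ / 4) y * (cut x₀ (ρ / 4) y * |gg τ y|) ≤ 1 * (1 * CB) := by
            refine mul_le_mul a2 (mul_le_mul a2 a3 a4 zero_le_one) (mul_nonneg a1 a4) zero_le_one
        _ = CB := by ring
    · rw [Set.indicator_of_notMem hy]
      have : h y = 0 := by
        by_contra hc
        exact hy (by rw [mem_closedBall, dist_eq_norm]; exact hsupp y hc)
      rw [this, abs_zero]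
  have hballm : MeasurableSet (closedBall x₀ (ρ / 2) : Set (En n)) := measurableSet_closedBall
  -- the three bounds
  have hvol : (volume : Measure (En n)).real (closedBall x₀ (ρ / 2)) ≤ vn * ρ ^ n := by
    rw [hvn, measureReal_def, measureReal_def, Measure.addHaar_closedBall' _ _ (by linarith),
      ENNReal.toReal_mul, ENNReal.toReal_ofReal (by positivity)]
    have hfr : Module.finrank ℝ (En n) = n := by simp
    rw [hfr]
    have h1 : (ρ / 2) ^ n ≤ ρ ^ n := pow_le_pow_left₀ (by linarith) (by linarith) n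
    have h2 : 0 ≤ ((volume : Measure (En n)) (closedBall (0 : En n) 1)).toReal :=
      ENNReal.toReal_nonneg
    nlinarith
  have hfin : (volume : Measure (En n)) (closedBall x₀ (ρ / 2)) ≠ ⊤ :=
    measure_closedBall_lt_top.ne
  have hintv : Integrable ((closedBall x₀ (ρ / 2)).indicator (fun _ => CB) : En n → ℝ) :=
    (integrable_indicator_iff hballm).2 (integrableOn_const hfin)
  have hintτ : Integrable ((closedBall x₀ (ρ / 2)).indicator (fun _ => CB) : En n → ℝ) τ :=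
    (integrable_indicator_iff hballm).2 (integrableOn_const (measure_ne_top _ _))
  have b1 : |∫ x, h x ∂τ| ≤ CB * (CB * 2 ^ n) * ρ ^ n := by
    calc |∫ x, h x ∂τ| ≤ ∫ x, |h x| ∂τ := abs_integral_le_integral_abs
      _ ≤ ∫ x, (closedBall x₀ (ρ / 2)).indicator (fun _ => CB) x ∂τ :=
          integral_mono_of_nonneg (Filter.Eventually.of_forall fun x => abs_nonneg _) hintτ
            (Filter.Eventually.of_forall habs)
      _ = τ.real (closedBall x₀ (ρ / 2)) * CB := by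
          rw [integral_indicator hballm, setIntegral_const, smul_eq_mul]
      _ ≤ (CB * (1 + ρ / 2) ^ n) * CB :=
          mul_le_mul_of_nonneg_right (hτb x₀ (ρ / 2) (by linarith)) hCB.le
      _ ≤ (CB * (2 * ρ) ^ n) * CB := by
          refine mul_le_mul_of_nonneg_right (mul_le_mul_of_nonneg_left ?_ hCB.le) hCB.le
          exact pow_le_pow_left₀ (by linarith) (by linarith) n
      _ = CB * (CB * 2 ^ n) * ρ ^ n := by rw [mul_pow]; ring
  have b2' : ∫ x, |h x| ≤ CB * vn * ρ ^ n := by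
    calc ∫ x, |h x| ≤ ∫ x, (closedBall x₀ (ρ / 2)).indicator (fun _ => CB) x :=
          integral_mono_of_nonneg (Filter.Eventually.of_forall fun x => abs_nonneg _) hintv
            (Filter.Eventually.of_forall habs)
      _ = (volume : Measure (En n)).real (closedBall x₀ (ρ / 2)) * CB := by
          rw [integral_indicator hballm, setIntegral_const, smul_eq_mul]
      _ ≤ (vn * ρ ^ n) * CB := mul_le_mul_of_nonneg_right hvol hCB.le
      _ = CB * vn * ρ ^ n := by ring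
  have b2 : |∫ x, h x| ≤ CB * vn * ρ ^ n := abs_integral_le_integral_abs.trans b2'
  have b3 : ∫ y, |h y| * tl τ x₀ ρ y ≤ CB * CA * (CB * vn) * ρ ^ n := by
    have hhi : Integrable (fun y => |h y| * (CB * CA)) := (hh.2.1.abs).mul_const _
    calc ∫ y, |h y| * tl τ x₀ ρ y ≤ ∫ y, |h y| * (CB * CA) := by
          refine integral_mono_of_nonneg ?_ hhi ?_
          · exact Filter.Eventually.of_forall fun y => mul_nonneg (abs_nonneg _) (tl_nonneg _ _ _ _)
          · refine Filter.Eventually.of_forall fun y => ?_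
            by_cases hy : h y = 0
            · simp [hy]
            · exact mul_le_mul_of_nonneg_left
                (tl_le τ hCB.le hgb hA1 hA2 hCA.le x₀ hρ (hsupp y hy)) (abs_nonneg _)
      _ = (∫ y, |h y|) * (CB * CA) := by rw [integral_mul_const]
      _ ≤ (CB * vn * ρ ^ n) * (CB * CA) := mul_le_mul_of_nonneg_right b2' (by positivity)
      _ = CB * CA * (CB * vn) * ρ ^ n := by ring
  have hpair : pair h u ≤ D * ρ ^ n := by
    have h1 := (hKEY h hh hsupp).1
    have h2 := (abs_le.1 h1).2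
    have h3 : CK n * ∫ x, h x ∂τ ≤ CK n * (CB * (CB * 2 ^ n) * ρ ^ n) :=
      mul_le_mul_of_nonneg_left ((le_abs_self _).trans b1) hCK.le
    have h4 : -(∫ x, h x) ≤ CB * vn * ρ ^ n := (neg_le_abs _).trans b2
    have h5 : CE * ∫ y, |h y| * tl τ x₀ ρ y ≤ CE * (CB * CA * (CB * vn) * ρ ^ n) :=
      mul_le_mul_of_nonneg_left b3 hCE.le
    have h6 : D * ρ ^ n = CK n * (CB * (CB * 2 ^ n) * ρ ^ n) + CB * vn * ρ ^ n +
        CE * (CB * CA * (CB * vn) * ρ ^ n) := by rw [hD]; ring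
    rw [h6]
    linarith
  have hNN : NN (sx n - 1) u ≤ NN (sx n) u := hu.NN_mono (by linarith) le_rfl
  have hNN0 : 0 ≤ NN (sx n) u := NN_nonneg _ _
  have hNN1 : 0 ≤ NN (sx n - 1) u := NN_nonneg _ _
  have hinv : (ρ / 4)⁻¹ = 4 / ρ := by rw [inv_div]
  have hle4 : 4 / ρ ≤ 4 := by rw [div_le_iff₀ hρ0]; linarith
  have hmax : (max 1 (ρ / 4)⁻¹) ^ (2 * n) ≤ 4 ^ (2 * n) := by
    refine pow_le_pow_left₀ (by positivity) ?_ _
    rw [hinv]
    exact max_le (by norm_num) hle4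
  have hfac : CS * ((ρ / 4)⁻¹ ^ 2 * (max 1 (ρ / 4)⁻¹) ^ (2 * n)) * NN (sx n - 1) u ≤
      CS * (16 * 4 ^ (2 * n)) / ρ ^ 2 * NN (sx n) u := by
    have e1 : CS * (16 * 4 ^ (2 * n)) / ρ ^ 2 = CS * ((ρ / 4)⁻¹ ^ 2 * 4 ^ (2 * n)) := by
      rw [hinv]
      field_simp
      ring
    rw [e1]
    refine mul_le_mul ?_ hNN hNN1 (by positivity)
    exact mul_le_mul_of_nonneg_left (mul_le_mul_of_nonneg_left hmax (by positivity)) hCS.le
  have hfin1 : CS * (16 * 4 ^ (2 * n)) / ρ ^ 2 * NN (sx n) u ≤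
      (2 * D + CS * (16 * 4 ^ (2 * n))) / ρ ^ 2 * NN (sx n) u := by
    refine mul_le_mul_of_nonneg_right ?_ hNN0
    exact div_le_div_of_nonneg_right (by linarith) (by positivity)
  have hfin2 : 2 * (D * ρ ^ n) ≤ (2 * D + CS * (16 * 4 ^ (2 * n))) * ρ ^ n := by
    have : 0 ≤ CS * (16 * 4 ^ (2 * n)) * ρ ^ n := by positivity
    nlinarith
  calc NN (sx n) (fun x => cut x₀ (ρ / 4) x * gg τ x)
      ≤ 2 * pair (fun x => cut x₀ (ρ / 4) x * (cut x₀ (ρ / 4) x * gg τ x)) u +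
        CS * ((ρ / 4)⁻¹ ^ 2 * (max 1 (ρ / 4)⁻¹) ^ (2 * n)) * NN (sx n - 1) u := by
        have e2 : (fun x => cut x₀ (ρ / 4) x * (cut x₀ (ρ / 4) x * gg τ x)) = h := by
          funext x
          simp only [hhdef, hudef]
          rw [cut_mul_cut x₀ hρ0 (gg τ) x]
        rw [e2]
        exact hmain
    _ = 2 * pair h u + CS * ((ρ / 4)⁻¹ ^ 2 * (max 1 (ρ / 4)⁻¹) ^ (2 * n)) *
        NN (sx n - 1) u := by
        have e2 : (fun x => cut x₀ (ρ / 4) x * (cut x₀ (ρ / 4) x * gg τ x)) = h := by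
          funext x
          simp only [hhdef, hudef]
          rw [cut_mul_cut x₀ hρ0 (gg τ) x]
        rw [e2]
    _ ≤ (2 * D + CS * (16 * 4 ^ (2 * n))) * ρ ^ n +
        (2 * D + CS * (16 * 4 ^ (2 * n))) / ρ ^ 2 * NN (sx n) u := by
        have := mul_le_mul_of_nonneg_left hpair (by norm_num : (0 : ℝ) ≤ 2)
        linarith

end Pool.Agent.Helper99.MB
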